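import Pool.Agent.Helper14.Pcg.Part
import Pool.Agent.Helper14.Pcg.Late
import Pool.Agent.Helper14.Pcg.Ext
import Pool.Agent.Helper14.Pcg.Targets

/-! # MODULE H: the hypergraph version from P, E (twice), L, T -/

set_option autoImplicit false
set_option linter.unusedSectionVars false

namespace Pool.Agent.Helper14.Pcg

open Finset

variable {V ι : Type*} [Fintype V] [DecidableEq V] [Fintype ι] [DecidableEq ι]

/-- The weights of the sets: incidences with `v`, and incidences with the neighbourhood of `u`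
normalised by the number of sets. -/
noncomputable def hwt (G : SimpleGraph V) [DecidableRel G.Adj] (S : ι → Finset V) :
    V ⊕ V → ι → ℝ
  | Sum.inl v, i => if v ∈ S i then 1 else 0
  | Sum.inr u, i => ∑ a ∈ nb G Finset.univ u, if a ∈ S i then 1 / (hd S a : ℝ) else 0

section hyp

variable (G : SimpleGraph V) [DecidableRel G.Adj] (S : ι → Finset V)

theorem hd_pos {v : V} {i : ι} (h : v ∈ S i) : 0 < hd S v := by
  rw [hd, Finset.card_pos]
  exact ⟨i, by simpa using h⟩

theorem nb_univ_card (v : V) : (nb G Finset.univ v).card = G.degree v := by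
  rw [← SimpleGraph.card_neighborFinset_eq_degree]
  congr 1
  ext u
  simp [nb]

theorem nb_card_le (X : Finset V) (v : V) : (nb G X v).card ≤ G.degree v := by
  rw [← nb_univ_card]
  apply Finset.card_le_card
  intro u hu
  simp only [nb, Finset.mem_filter, Finset.mem_univ, true_and] at hu ⊢
  exact hu.2

theorem hwt_nonneg (j : V ⊕ V) (i : ι) : 0 ≤ hwt G S j i := by
  rcases j with v | u
  · simp only [hwt]
    split_ifs <;> norm_num
  · simp only [hwt]
    apply Finset.sum_nonneg
    intro a _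
    split_ifs
    · positivity
    · exact le_refl _

theorem hwt_le {s : ℕ} (hs : 1 ≤ s) (hS : ∀ i, (S i).card ≤ s) (j : V ⊕ V) (i : ι) :
    hwt G S j i ≤ s := by
  have hsR : (1 : ℝ) ≤ s := by exact_mod_cast hs
  rcases j with v | u
  · simp only [hwt]
    split_ifs
    · exact hsR
    · linarith
  · simp only [hwt]
    calc ∑ a ∈ nb G Finset.univ u, (if a ∈ S i then 1 / (hd S a : ℝ) else 0)
        ≤ ∑ a ∈ nb G Finset.univ u, (if a ∈ S i then (1 : ℝ) else 0) := by
          apply Finset.sum_le_sum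
          intro a _
          by_cases ha : a ∈ S i
          · simp only [ha, if_true]
            have : (1 : ℝ) ≤ hd S a := by exact_mod_cast hd_pos S ha
            rw [div_le_one (by linarith)]
            exact this
          · simp [ha]
      _ ≤ ∑ a, (if a ∈ S i then (1 : ℝ) else 0) := by
          apply Finset.sum_le_sum_of_subset_of_nonneg (Finset.subset_univ _)
          intro a _ _
          split_ifs <;> norm_num
      _ = ((S i).card : ℝ) := by
          rw [Finset.sum_ite_mem, Finset.univ_inter, Finset.sum_const, nsmul_eq_mul, mul_one]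
      _ ≤ s := by exact_mod_cast hS i

theorem hwt_inl_sum (v : V) (I : Finset ι) :
    ∑ i ∈ I, hwt G S (Sum.inl v) i = ((I.filter fun i => v ∈ S i).card : ℝ) := by
  simp only [hwt]
  rw [← Finset.sum_filter, Finset.sum_const, nsmul_eq_mul, mul_one]

theorem hwt_inr_sum (u : V) (I : Finset ι) :
    ∑ i ∈ I, hwt G S (Sum.inr u) i =
      ∑ a ∈ nb G Finset.univ u, ((I.filter fun i => a ∈ S i).card : ℝ) / (hd S a : ℝ) := by
  simp only [hwt]
  rw [Finset.sum_comm]
  refine Finset.sum_congr rfl fun a _ => ?_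
  rw [← Finset.sum_filter, Finset.sum_const, nsmul_eq_mul]
  ring

theorem hwt_sum_le {k : ℕ} (hbud : ∀ v, G.degree v + hd S v + 1 ≤ k) (j : V ⊕ V) :
    ∑ i, hwt G S j i ≤ k := by
  rcases j with v | u
  · rw [hwt_inl_sum]
    have h1 : (Finset.univ.filter fun i => v ∈ S i).card ≤ k := by
      have := hbud v
      rw [hd] at this
      omega
    exact_mod_cast h1
  · rw [hwt_inr_sum]
    calc ∑ a ∈ nb G Finset.univ u, ((Finset.univ.filter fun i => a ∈ S i).card : ℝ) / (hd S a : ℝ)
        ≤ ∑ _a ∈ nb G Finset.univ u, (1 : ℝ) := by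
          apply Finset.sum_le_sum
          intro a _
          rw [show (Finset.univ.filter fun i => a ∈ S i).card = hd S a from rfl]
          exact div_self_le_one _
      _ = (G.degree u : ℝ) := by
          rw [Finset.sum_const, nsmul_eq_mul, mul_one, nb_univ_card]
      _ ≤ k := by
          have : G.degree u ≤ k := by have := hbud u; omega
          exact_mod_cast this

theorem hwt_inl_ne {v : V} {i : ι} (h : hwt G S (Sum.inl v) i ≠ 0) : v ∈ S i := by
  by_contra hv
  exact h (by simp [hwt, hv])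

theorem hwt_inr_ne {u : V} {i : ι} (h : hwt G S (Sum.inr u) i ≠ 0) : ∃ a, G.Adj u a ∧ a ∈ S i := by
  simp only [hwt] at h
  obtain ⟨a, ha, hne⟩ := Finset.exists_ne_zero_of_sum_ne_zero h
  refine ⟨a, ?_, ?_⟩
  · simpa [nb] using ha
  · by_contra hv
    exact hne (by simp [hv])

theorem hwt_supp {k : ℕ} (hk : 2 ≤ k) (hbud : ∀ v, G.degree v + hd S v + 1 ≤ k) (j : V ⊕ V) :
    (Finset.univ.filter fun i => hwt G S j i ≠ 0).card ≤ k ^ 3 := by
  rcases j with v | u
  · have h1 : (Finset.univ.filter fun i => hwt G S (Sum.inl v) i ≠ 0).card ≤ hd S v := by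
      apply Finset.card_le_card
      intro i hi
      simp only [Finset.mem_filter, Finset.mem_univ, true_and] at hi ⊢
      exact hwt_inl_ne G S hi
    have h2 := hbud v
    calc _ ≤ k := by omega
      _ = k ^ 1 := (pow_one _).symm
      _ ≤ k ^ 3 := Nat.pow_le_pow_right (by omega) (by norm_num)
  · have h1 : (Finset.univ.filter fun i => hwt G S (Sum.inr u) i ≠ 0).card ≤
        ((nb G Finset.univ u).biUnion fun a => Finset.univ.filter fun i => a ∈ S i).card := by
      apply Finset.card_le_card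
      intro i hi
      simp only [Finset.mem_filter, Finset.mem_univ, true_and] at hi
      obtain ⟨a, ha, hi⟩ := hwt_inr_ne G S hi
      simp only [Finset.mem_biUnion, Finset.mem_filter, Finset.mem_univ, true_and, nb]
      exact ⟨a, ha, hi⟩
    calc _ ≤ _ := h1
      _ ≤ ∑ a ∈ nb G Finset.univ u, (Finset.univ.filter fun i => a ∈ S i).card :=
          Finset.card_biUnion_le
      _ ≤ ∑ _a ∈ nb G Finset.univ u, k := by
          apply Finset.sum_le_sum
          intro a _
          have := hbud a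
          rw [hd] at this
          omega
      _ = G.degree u * k := by rw [Finset.sum_const, smul_eq_mul, nb_univ_card]
      _ ≤ k * k := Nat.mul_le_mul_right _ (by have := hbud u; omega)
      _ = k ^ 2 := by ring
      _ ≤ k ^ 3 := Nat.pow_le_pow_right (by omega) (by norm_num)

theorem hwt_rho {k s : ℕ} (hk : 2 ≤ k) (hsk : 2 * s ≤ k) (hS : ∀ i, (S i).card ≤ s)
    (hbud : ∀ v, G.degree v + hd S v + 1 ≤ k) (x : V) :
    (Finset.univ.filter fun j : V ⊕ V => ∃ i, x ∈ S i ∧ hwt G S j i ≠ 0).card ≤ k ^ 3 := by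
  set B : Finset V := (Finset.univ.filter fun i => x ∈ S i).biUnion S with hB
  have hBc : B.card ≤ k * s := by
    calc B.card ≤ ∑ i ∈ Finset.univ.filter (fun i => x ∈ S i), (S i).card := Finset.card_biUnion_le
      _ ≤ ∑ _i ∈ Finset.univ.filter (fun i => x ∈ S i), s := Finset.sum_le_sum fun i _ => hS i
      _ = hd S x * s := by rw [Finset.sum_const, smul_eq_mul, hd]
      _ ≤ k * s := Nat.mul_le_mul_right _ (by have := hbud x; omega)
  have hsub : (Finset.univ.filter fun j : V ⊕ V => ∃ i, x ∈ S i ∧ hwt G S j i ≠ 0) ⊆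
      B.image Sum.inl ∪ (B.biUnion fun a => nb G Finset.univ a).image Sum.inr := by
    intro j hj
    simp only [Finset.mem_filter, Finset.mem_univ, true_and] at hj
    obtain ⟨i, hxi, hne⟩ := hj
    rw [Finset.mem_union, Finset.mem_image, Finset.mem_image]
    rcases j with v | u
    · left
      refine ⟨v, ?_, rfl⟩
      rw [hB, Finset.mem_biUnion]
      exact ⟨i, by simpa using hxi, hwt_inl_ne G S hne⟩
    · right
      refine ⟨u, ?_, rfl⟩
      obtain ⟨a, hau, hai⟩ := hwt_inr_ne G S hne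
      rw [Finset.mem_biUnion]
      refine ⟨a, ?_, ?_⟩
      · rw [hB, Finset.mem_biUnion]
        exact ⟨i, by simpa using hxi, hai⟩
      · simp only [nb, Finset.mem_filter, Finset.mem_univ, true_and]
        exact hau.symm
  calc _ ≤ _ := Finset.card_le_card hsub
    _ ≤ (B.image Sum.inl).card + ((B.biUnion fun a => nb G Finset.univ a).image Sum.inr).card :=
        Finset.card_union_le _ _
    _ ≤ B.card + (B.biUnion fun a => nb G Finset.univ a).card :=
        Nat.add_le_add Finset.card_image_le Finset.card_image_le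
    _ ≤ B.card + ∑ a ∈ B, (nb G Finset.univ a).card := Nat.add_le_add_left Finset.card_biUnion_le _
    _ ≤ B.card + ∑ _a ∈ B, k := by
        apply Nat.add_le_add_left
        apply Finset.sum_le_sum
        intro a _
        rw [nb_univ_card]
        have := hbud a
        omega
    _ = B.card * (1 + k) := by rw [Finset.sum_const, smul_eq_mul]; ring
    _ ≤ (k * s) * (1 + k) := Nat.mul_le_mul_right _ hBc
    _ ≤ (k * s) * (2 * k) := Nat.mul_le_mul_left _ (by omega)
    _ = k * k * (2 * s) := by ring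
    _ ≤ k * k * k := Nat.mul_le_mul_left _ hsk
    _ = k ^ 3 := by ring

end hyp

/-- MODULE H (from P, E twice, L, T). -/
theorem hyper (G₀ G : SimpleGraph V) [DecidableRel G₀.Adj] [DecidableRel G.Adj]
    (hG : ∀ u v, G₀.Adj u v → G.Adj u v) (S : ι → Finset V) {k s m : ℕ}
    (hm : 1 ≤ m) (hs : s = 8000 * 10 ^ 11 * m) (hk : s ^ 30 ≤ k) (hke : (k : ℝ) ≤ 2 * Real.exp m)
    (h3 : ∀ i, 3 ≤ (S i).card) (hS : ∀ i, (S i).card ≤ s)
    (hbud : ∀ v, G.degree v + hd S v + 1 ≤ k) :
    ∃ c : V → Fin k, (∀ u v, G.Adj u v → c u ≠ c v) ∧ (∀ i, HasUniq c (S i)) ∧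
      ∀ w, s ≤ G₀.degree w → HasUniq c (nb G₀ Finset.univ w) := by
  classical
  have hs4 : 10 ^ 4 ≤ s := by
    rw [hs]
    calc 10 ^ 4 ≤ 8000 * 10 ^ 11 * 1 := by norm_num
      _ ≤ 8000 * 10 ^ 11 * m := Nat.mul_le_mul_left _ hm
  have hs0 : 0 < s := by omega
  have hk0 : 0 < k := lt_of_lt_of_le (pow_pos hs0 30) hk
  have hsk1 : s ^ 2 ≤ k := le_trans (Nat.pow_le_pow_right hs0 (by norm_num)) hk
  have hsk : 2 * s ≤ k := by nlinarith
  have hk2 : 2 ≤ k := by omega
  have hks : (k : ℝ) ^ 20 ≤ Real.exp s := by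
    have h1 : (2 : ℝ) ≤ Real.exp 1 := by
      have := Real.add_one_le_exp (1 : ℝ)
      linarith
    have h2 : (k : ℝ) ≤ Real.exp (1 + m) := by
      rw [Real.exp_add]
      calc (k : ℝ) ≤ 2 * Real.exp m := hke
        _ ≤ Real.exp 1 * Real.exp m := by gcongr
    calc (k : ℝ) ^ 20 ≤ (Real.exp (1 + m)) ^ 20 := by gcongr
      _ = Real.exp (20 * (1 + m)) := by
          rw [← Real.exp_nat_mul]; push_cast; rfl
      _ ≤ Real.exp s := by
          apply Real.exp_le_exp.mpr
          have hmR : (1 : ℝ) ≤ m := by exact_mod_cast hm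
          rw [hs]
          push_cast
          nlinarith
  have hsR0 : (0 : ℝ) < s := by exact_mod_cast hs0
  have hsR : (10 : ℝ) ^ 4 ≤ s := by exact_mod_cast hs4
  have hkR0 : (0 : ℝ) < k := by exact_mod_cast hk0
  have hh : ∀ v, hd S v ≤ k := fun v => by have := hbud v; omega
  have hdeg : ∀ v, G.degree v ≤ k := fun v => by have := hbud v; omega
  set W := hwt G S with hW
  have hW0 : ∀ j i, 0 ≤ W j i := hwt_nonneg G S
  have hWs : ∀ j i, W j i ≤ s := hwt_le G S hs0 hS
  have hWk : ∀ j, ∑ i, W j i ≤ k := hwt_sum_le G S hbud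
  have hρ := hwt_rho G S hk2 hsk hS hbud
  -- the poor vertices and the late ones
  set P : Finset V := Finset.univ.filter fun v => s ^ 6 * hd S v ≤ k with hP
  obtain ⟨L, hLP, hL1, hL2⟩ := exists_late G S hs4 hk hks hS hdeg W hW0 hWs hWk hρ
    (hwt_supp G S hk2 hbud) P (fun v hv => (Finset.mem_filter.mp hv).2)
  -- the early poor vertices
  have hcoin0 : ∀ (c : V → Fin k) i, ¬ Coinc S ∅ c i := by
    intro c i h
    obtain ⟨u, hu, _⟩ := h
    simp at hu
  obtain ⟨c₁, -, hc₁, hone₁, hw₁⟩ := extend G S hs4 hk hks hS hh W hW0 hWs hWk hρ ∅ (P \ L)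
    (Finset.disjoint_empty_left _) (fun _ => ⟨0, hk0⟩) (by simp) (by
      intro i u hu
      simp at hu) 0 (by
      intro j
      rw [Finset.filter_false_of_mem (fun i _ => hcoin0 _ i)]
      simp) (by
      intro x _
      rw [Finset.filter_false_of_mem (fun i _ h => hcoin0 _ i h.2)]
      simp) (by
      intro x _
      rw [Finset.empty_union]
      exact hL1 x)
  rw [Finset.empty_union] at hc₁
  simp only [Finset.empty_union, zero_add] at hone₁ hw₁
  -- the rich vertices
  have hs8 : (0 : ℝ) < (s : ℝ) ^ 8 := by positivity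
  obtain ⟨c₂, hc₂X, hc₂, hone₂, hw₂⟩ := extend G S hs4 hk hks hS hh W hW0 hWs hWk hρ (P \ L) Pᶜ
    (by
      rw [Finset.disjoint_left]
      intro v hv1 hv2
      exact (Finset.mem_compl.mp hv2) (Finset.mem_sdiff.mp hv1).1) c₁ hc₁ hone₁ (k / s ^ 8) hw₁
    (by
      intro x _
      have h1 := hw₁ (Sum.inl x)
      rw [hW, hwt_inl_sum, Finset.filter_filter, le_div_iff₀ hs8] at h1
      have h2 : (Finset.univ.filter fun i => x ∈ S i ∧ Coinc S (P \ L) c₁ i) =
          Finset.univ.filter fun i => Coinc S (P \ L) c₁ i ∧ x ∈ S i := by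
        refine Finset.filter_congr fun i _ => ?_
        tauto
      rw [h2]
      have h4 : ((s : ℝ) ^ 8 * (Finset.univ.filter fun i => Coinc S (P \ L) c₁ i ∧
          x ∈ S i).card) ≤ k := by
        rw [mul_comm]; exact h1
      exact_mod_cast h4)
    (by
      intro x hx
      have h1 : k < s ^ 6 * hd S x := by
        rw [hP, Finset.mem_compl, Finset.mem_filter] at hx
        push Not at hx
        exact hx (Finset.mem_univ _)
      have h2 := nb_card_le G (P \ L ∪ Pᶜ) x
      have h3 := hbud x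
      have h4 : (nb G (P \ L ∪ Pᶜ) x).card + hd S x ≤ k := by omega
      calc 8 * s ^ 6 * (nb G (P \ L ∪ Pᶜ) x).card + k
          ≤ 8 * s ^ 6 * (nb G (P \ L ∪ Pᶜ) x).card + 8 * (s ^ 6 * hd S x) := by omega
        _ = 8 * s ^ 6 * ((nb G (P \ L ∪ Pᶜ) x).card + hd S x) := by ring
        _ ≤ 8 * s ^ 6 * k := Nat.mul_le_mul_left _ h4)
  have hXL : P \ L ∪ Pᶜ = Lᶜ := by
    ext v
    simp only [Finset.mem_union, Finset.mem_sdiff, Finset.mem_compl]
    constructor
    · rintro (h | h)
      · exact h.2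
      · exact fun hv => h (hLP hv)
    · intro h
      by_cases hv : v ∈ P
      · exact Or.inl ⟨hv, h⟩
      · exact Or.inr hv
  rw [hXL] at hc₂
  simp only [hXL] at hone₂ hw₂
  -- the late vertices
  obtain ⟨c₃, hc₃X, hc₃, hu₃⟩ := late_greedy G S h3 Lᶜ c₂ hc₂ hone₂ (fun v _ => hbud v)
  have hcoin : ∀ i, Coinc S Lᶜ c₃ i ↔ Coinc S Lᶜ c₂ i := by
    intro i
    unfold Coinc
    constructor
    · rintro ⟨u, hu, v, hv, huv, hcuv⟩
      refine ⟨u, hu, v, hv, huv, ?_⟩
      rw [← hc₃X u (Finset.mem_inter.mp hu).2, ← hc₃X v (Finset.mem_inter.mp hv).2]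
      exact hcuv
    · rintro ⟨u, hu, v, hv, huv, hcuv⟩
      refine ⟨u, hu, v, hv, huv, ?_⟩
      rw [hc₃X u (Finset.mem_inter.mp hu).2, hc₃X v (Finset.mem_inter.mp hv).2]
      exact hcuv
  -- the marked sets
  set Mk : Finset ι := (Finset.univ.filter fun i => (S i ∩ L).Nonempty) ∪
    (Finset.univ.filter fun i => Coinc S Lᶜ c₂ i) with hMkdef
  have hMkW : ∀ j, ∑ i ∈ Mk, W j i ≤ 2 * k / s ^ 4 + 2 * k / s ^ 8 := by
    intro j
    have h1 : ∑ i ∈ Mk, W j i ≤ ∑ i ∈ Finset.univ.filter (fun i => (S i ∩ L).Nonempty), W j i +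
        ∑ i ∈ Finset.univ.filter (fun i => Coinc S Lᶜ c₂ i), W j i := by
      rw [hMkdef, ← Finset.sum_union_inter]
      have : 0 ≤ ∑ i ∈ (Finset.univ.filter fun i => (S i ∩ L).Nonempty) ∩
          (Finset.univ.filter fun i => Coinc S Lᶜ c₂ i), W j i :=
        Finset.sum_nonneg fun i _ => hW0 j i
      linarith
    have h2 := hL2 j
    have h4 := hw₂ j
    have h5 : (k : ℝ) / s ^ 8 + k / s ^ 8 = 2 * k / s ^ 8 := by ring
    linarith
  have hbound : 2 * (k : ℝ) / s ^ 4 + 2 * k / s ^ 8 ≤ 4 * k / s ^ 4 := by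
    have h1 : 2 * (k : ℝ) / s ^ 8 ≤ 2 * k / s ^ 4 := by
      apply div_le_div_of_nonneg_left (by positivity) (by positivity)
      exact pow_le_pow_right₀ (by linarith) (by norm_num)
    have h2 : 4 * (k : ℝ) / s ^ 4 = 2 * k / s ^ 4 + 2 * k / s ^ 4 := by ring
    linarith
  apply targets G₀ G hG S hm hs hk hke h3 hS hbud c₃ hc₃ Mk (fun i _ => hu₃ i)
  · intro i hi u hu v hv huv
    rw [hMkdef, Finset.mem_union, not_or, Finset.mem_filter, Finset.mem_filter] at hi
    have h1 : ¬ (S i ∩ L).Nonempty := fun h => hi.1 ⟨Finset.mem_univ _, h⟩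
    have h2 : ¬ Coinc S Lᶜ c₂ i := fun h => hi.2 ⟨Finset.mem_univ _, h⟩
    by_contra hne
    apply h2
    rw [← hcoin]
    have hmem : ∀ w ∈ S i, w ∈ S i ∩ Lᶜ := by
      intro w hw
      rw [Finset.mem_inter, Finset.mem_compl]
      exact ⟨hw, fun hwL => h1 ⟨w, Finset.mem_inter.mpr ⟨hw, hwL⟩⟩⟩
    exact ⟨u, hmem u hu, v, hmem v hv, hne, huv⟩
  · intro v
    have h1 := (hMkW (Sum.inl v)).trans hbound
    rw [hW, hwt_inl_sum, le_div_iff₀ (by positivity)] at h1
    have h2 : (s : ℝ) ^ 2 * (Mk.filter fun i => v ∈ S i).card ≤ k := by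
      have h4 : (4 : ℝ) ≤ s ^ 2 := by nlinarith
      have h5 : (0 : ℝ) ≤ ((Mk.filter fun i => v ∈ S i).card : ℝ) := Nat.cast_nonneg _
      have h6 : 4 * ((s : ℝ) ^ 2 * (Mk.filter fun i => v ∈ S i).card) ≤ 4 * k := by
        calc 4 * ((s : ℝ) ^ 2 * (Mk.filter fun i => v ∈ S i).card)
            ≤ s ^ 2 * ((s : ℝ) ^ 2 * (Mk.filter fun i => v ∈ S i).card) := by gcongr
          _ = (Mk.filter fun i => v ∈ S i).card * (s : ℝ) ^ 4 := by ring
          _ ≤ 4 * k := h1
      linarith
    exact_mod_cast h2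
  · intro v
    have h1 := (hMkW (Sum.inr v)).trans hbound
    rw [hW, hwt_inr_sum, le_div_iff₀ (by positivity)] at h1
    set Bd := (nb G Finset.univ v).filter fun a =>
      hd S a < 4 * s * (Mk.filter fun i => a ∈ S i).card with hBd
    have h2 : (Bd.card : ℝ) * (1 / (4 * s)) ≤
        ∑ a ∈ nb G Finset.univ v, ((Mk.filter fun i => a ∈ S i).card : ℝ) / (hd S a : ℝ) := by
      calc (Bd.card : ℝ) * (1 / (4 * s)) = ∑ _a ∈ Bd, (1 / (4 * (s : ℝ))) := by
            rw [Finset.sum_const, nsmul_eq_mul]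
        _ ≤ ∑ a ∈ Bd, ((Mk.filter fun i => a ∈ S i).card : ℝ) / (hd S a : ℝ) := by
            apply Finset.sum_le_sum
            intro a ha
            have h4 := (Finset.mem_filter.mp ha).2
            have h5 : 0 < hd S a := by
              by_contra h6
              have h7 : hd S a = 0 := by omega
              have h8 : (Mk.filter fun i => a ∈ S i).card = 0 := by
                rw [Finset.card_eq_zero, Finset.filter_eq_empty_iff]
                intro i _ hai
                have := hd_pos S hai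
                omega
              rw [h7, h8] at h4
              simp at h4
            have h5R : (0 : ℝ) < hd S a := by exact_mod_cast h5
            have h4R : (hd S a : ℝ) < 4 * s * (Mk.filter fun i => a ∈ S i).card := by
              exact_mod_cast h4
            rw [div_le_div_iff₀ (by positivity) h5R]
            linarith
        _ ≤ _ := by
            apply Finset.sum_le_sum_of_subset_of_nonneg (Finset.filter_subset _ _)
            intro a _ _
            positivity
    have h6 : (Bd.card : ℝ) * (1 / (4 * s)) * s ^ 4 ≤ 4 * k :=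
      (mul_le_mul_of_nonneg_right h2 (by positivity)).trans h1
    have h7 : (s : ℝ) * Bd.card ≤ k := by
      have h8 : (Bd.card : ℝ) * (1 / (4 * s)) * s ^ 4 = (s : ℝ) * Bd.card * (s ^ 2 / 4) := by
        field_simp
      rw [h8] at h6
      have h9 : (4 : ℝ) ≤ s ^ 2 / 4 := by nlinarith
      have h10 : (0 : ℝ) ≤ (s : ℝ) * Bd.card := by positivity
      have h11 : (s : ℝ) * Bd.card * 4 ≤ (s : ℝ) * Bd.card * (s ^ 2 / 4) := by gcongr
      linarith
    exact_mod_cast h7

end Pool.Agent.Helper14.Pcg
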